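import Mathlib
import Pool.Agent.V1199.AdpConseq

open Set Filter Topology

namespace Pool.Agent.Results.MP_bb1dce_an.SuperAdpDual

open Pool.Agent.V1199

/-- The dual of an infinite-dimensional Banach space with the super ADP fails the CPCP. -/
theorem result (𝕜 : Type*) [RCLike 𝕜] (X : Type*) [NormedAddCommGroup X] [NormedSpace 𝕜 X]
    [CompleteSpace X] (hinf : ¬ FiniteDimensional 𝕜 X) (hX : SuperADP 𝕜 X) :
    ¬ DualCPCP 𝕜 X := by
  obtain ⟨y, hy⟩ := exists_independent hX hinf (η := 1 / 8) (by norm_num)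
  exact not_cpcp_of_indep hy

end Pool.Agent.Results.MP_bb1dce_an.SuperAdpDual
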